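import Mathlib
import Pool.Agent.W126.IsoHer

set_option autoImplicit false

/-!
# Infinite sets whose finite subsets are exact patterns of primes between two record gaps

Let `f(x) = log x (log₂ x)² log₄ x / (log₃ x)²`, the size of the largest gaps between consecutive primes that
are known to occur up to `x`. Every infinite set of integers contains an infinite set `B` such that for infinitely
many `s` EVERY `s`-element subset `S` of `B` (far enough out, depending on `s`) is, for infinitely many `n`, exactly
the set of the `y` with `n + y` prime and `|y| ≤ c f(n)`: the primes `n + y`, `y ∈ S`, are consecutive and form a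
cluster with record gaps on both sides. For every `m` there is such an `s` between `m` and `K(m)`, with `K(m)` and
`c = c(m)` independent of the set. The same holds for countably many maps into the integers and countably many
residue classes at once.

Method: among any `K(m)` integers there are at least `m` which form the EXACT pattern of the primes in intervals of
record length on both sides (`Pool.Agent.W126.RecIso.core`, helper126; it rests on the coloured Maynard-Tao theorems
of helper362, the record sieve of helper256 and helper410 and the Maynard-Tao sieve inside record windows of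
helper312's team); infinite Ramsey theorem for the sizes `m, ..., K(m)` and a diagonal argument (helper672).
-/

open Filter

namespace Pool.Agent.Results.MP_028722_nt.IsolatedHereditarySets

/-- The record scale `f(x) = log x (log₂ x)² log₄ x / (log₃ x)²` (iterated natural logarithms). -/
noncomputable def f (x : ℝ) : ℝ :=
  Real.log x * (Real.log (Real.log x)) ^ 2 * Real.log (Real.log (Real.log (Real.log x))) /
    (Real.log (Real.log (Real.log x))) ^ 2

/-- For infinitely many `n` the primes at distance at most `c f(n)` from `n` are exactly the numbers `n + y`,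
`y ∈ S`, and these are all `≡ r (mod q)`. -/
def IsolatedPattern (c : ℝ) (q r : ℕ) (S : Finset ℤ) : Prop :=
  ∃ᶠ n : ℕ in atTop, (∀ y : ℤ, |(y : ℝ)| ≤ c * f n → (((n : ℤ) + y).toNat.Prime ↔ y ∈ S)) ∧
    ∀ y ∈ S, (n : ℤ) + y ≡ r [ZMOD q]

/-- There are numbers `K m` and `c m > 0` such that the following holds. For every `j` let `φ j` be an injective map
from the natural numbers to the integers, `q j` squarefree and `r j` prime to `q j`. There is one increasing
sequence `b` such that for all `j` and `m` there are `s` with `m ≤ s ≤ K m` and `N` for which EVERY set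
`{φ j (b i) : i ∈ I}`, where `I` consists of `s` indices `≥ N`, is an isolated pattern. -/
theorem result : ∃ (K : ℕ → ℕ) (c : ℕ → ℝ), (∀ m, 0 < c m) ∧
    ∀ φ : ℕ → ℕ → ℤ, (∀ j, Function.Injective (φ j)) →
    ∀ q r : ℕ → ℕ, (∀ j, Squarefree (q j)) → (∀ j, (r j).Coprime (q j)) →
    ∃ b : ℕ → ℕ, StrictMono b ∧ ∀ j m : ℕ, ∃ s N : ℕ, m ≤ s ∧ s ≤ K m ∧
      ∀ I : Finset ℕ, I.card = s → (∀ i ∈ I, N ≤ i) →
        IsolatedPattern (c m) (q j) (r j) (I.image (fun i => φ j (b i))) :=
  Pool.Agent.W126.IsoHer.main

/-- Special case: every infinite set `A` of integers contains an infinite set `B` such that for every `m` there is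
`s ≥ m` for which every `s`-element subset of `B`, outside a finite set that depends on `m`, is an isolated
pattern. -/
theorem one_set : ∃ c : ℕ → ℝ, (∀ m, 0 < c m) ∧ ∀ A : Set ℤ, A.Infinite → ∃ B ⊆ A, B.Infinite ∧
    ∀ m : ℕ, ∃ s, m ≤ s ∧ ∃ F : Finset ℤ, ∀ S : Finset ℤ, (S : Set ℤ) ⊆ B → Disjoint S F → S.card = s →
      IsolatedPattern (c m) 1 0 S := by
  classical
  obtain ⟨K, c, hc, h⟩ := result
  refine ⟨c, hc, fun A hA => ?_⟩
  have := hA.to_subtype
  let e : ℕ ↪ A := Infinite.natEmbedding A
  have he : Function.Injective (fun n => ((e n : A) : ℤ)) := Subtype.val_injective.comp e.injective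
  obtain ⟨b, hb, hP⟩ := h (fun _ n => ((e n : A) : ℤ)) (fun _ => he) (fun _ => 1) (fun _ => 0)
    (fun _ => squarefree_one) (fun _ => Nat.coprime_one_right 0)
  have hinj : Function.Injective (fun i => ((e (b i) : A) : ℤ)) := he.comp hb.injective
  refine ⟨Set.range (fun i => ((e (b i) : A) : ℤ)), ?_, Set.infinite_range_of_injective hinj, fun m => ?_⟩
  · rintro _ ⟨i, rfl⟩
    exact (e (b i)).2
  · obtain ⟨s, N, hs, -, hI⟩ := hP 0 m
    refine ⟨s, hs, (Finset.range N).image (fun i => ((e (b i) : A) : ℤ)), fun S hS hSF hSc => ?_⟩
    set I : Finset ℕ := S.preimage (fun i => ((e (b i) : A) : ℤ)) hinj.injOn with hIdef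
    have hIS : I.image (fun i => ((e (b i) : A) : ℤ)) = S := by
      rw [hIdef, Finset.image_preimage]
      apply Finset.filter_true_of_mem
      intro x hx
      exact hS hx
    have h1 := hI I (by rw [← hSc, ← hIS, Finset.card_image_of_injective _ hinj]) (by
      intro i hi
      by_contra hlt
      push Not at hlt
      rw [hIdef, Finset.mem_preimage] at hi
      exact Finset.disjoint_left.1 hSF hi (Finset.mem_image.2 ⟨i, Finset.mem_range.2 hlt, rfl⟩))
    rw [hIS] at h1
    exact h1

end Pool.Agent.Results.MP_028722_nt.IsolatedHereditarySets
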