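import Pool.Agent.Results.MP_f9960f_nt.EveryWeight
import Pool.Agent.Results.MP_3bc45c_nt.LocalAlmostLipschitz
import Pool.Agent.W123.PP.Law

set_option autoImplicit false

/-!
# The local law of the gaps between primes, around almost all primes

For every `θ > 0` and `ε > 0` there is `c > 0`, and for every `δ > 0` there is `K`, such that all but
`ε Y / log X` of the primes `p` of every interval `(X, X + Y]`, `X ^ θ ≤ Y ≤ X`, have the following
property. All the intervals `(p - 2 ^ j, p + 2 ^ j]` with `log X ≤ 2 ^ j ≤ Y` contain at least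
`c 2 ^ j / log X` primes. For all but `K` of these scales the gaps are equidistributed: uniformly in
the real number `lam` and in the interval `(u, v]` contained in `[p - 2 ^ j, p + 2 ^ j]`, the number of
primes of `(u, v]` whose distance to the next prime is at most `lam log X` is proportional to
`v - u`, up to `δ 2 ^ j / log X`.
-/

namespace Pool.Agent.Results.MP_028722_nt.LocalGapLaw

open Finset Filter

/-- the distance from `q` to the next prime -/
noncomputable def gap (q : ℕ) : ℕ := sInf {d : ℕ | 0 < d ∧ (q + d).Prime}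

open Classical in
/-- the number of primes of `(u, v]` with gap at most `lam log X` -/
noncomputable def count (X u v : ℕ) (lam : ℝ) : ℕ :=
  ((Finset.Ioc u v).filter (fun q => q.Prime ∧ (gap q : ℝ) ≤ lam * Real.log X)).card

/-- the gaps are equidistributed at the scale `2 ^ j` around `p`, uniformly in the size of the gap -/
def Equidistributed (δ : ℝ) (X p j : ℕ) : Prop :=
  ∀ (lam : ℝ) (u v : ℕ), p ≤ u + 2 ^ j → u ≤ v → v ≤ p + 2 ^ j →
    |(count X u v lam : ℝ) - ((v : ℝ) - u) / (2 * 2 ^ j) * count X (p - 2 ^ j) (p + 2 ^ j) lam| ≤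
      δ * 2 ^ j / Real.log X

open Classical in
/-- the number of scales `log X ≤ 2 ^ j ≤ Y` without this property -/
noncomputable def badScales (δ : ℝ) (X Y p : ℕ) : ℕ :=
  ((Finset.range (Nat.log 2 Y + 1)).filter (fun j => Real.log X ≤ (2 : ℝ) ^ j ∧
    ¬ Equidistributed δ X p j)).card

/-- there are many primes around `p`, at all scales -/
def ManyPrimes (c : ℝ) (X Y p : ℕ) : Prop :=
  ∀ j : ℕ, Real.log X ≤ (2 : ℝ) ^ j → 2 ^ j ≤ Y →
    c * 2 ^ j / Real.log X ≤ (((Finset.Ioc (p - 2 ^ j) (p + 2 ^ j)).filter Nat.Prime).card : ℝ)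

open Pool.Agent.W123.PP

lemma cf (P Q : ℕ → Prop) (i1 : DecidablePred P) (i2 : DecidablePred Q) (s t : Finset ℕ)
    (h : ∀ q ∈ s, P q → q ∈ t ∧ Q q) :
    (@Finset.filter ℕ P i1 s).card ≤ (@Finset.filter ℕ Q i2 t).card := by
  apply card_le_card
  intro q hq
  rw [mem_filter] at hq ⊢
  exact h q hq.1 hq.2

open Classical in
/-- **The local law of the gaps.** -/
theorem result : ∀ θ : ℝ, 0 < θ → θ ≤ 1 → ∀ ε : ℝ, 0 < ε → ∃ c : ℝ, 0 < c ∧
    ∀ δ : ℝ, 0 < δ → ∃ K : ℕ, ∀ᶠ X : ℕ in atTop, ∀ Y : ℕ, (X : ℝ) ^ θ ≤ Y → Y ≤ X →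
      (((Finset.Ioc X (X + Y)).filter (fun p => p.Prime ∧
        ¬ (ManyPrimes c X Y p ∧ badScales δ X Y p ≤ K))).card : ℝ) ≤ ε * Y / Real.log X := by
  intro θ h0 h1 ε hε
  obtain ⟨c2, hc2, hEW⟩ := MP_f9960f_nt.EveryWeight.result θ h0 h1 (ε / 4) (by positivity)
  obtain ⟨K2, hEW1⟩ := hEW 1 one_pos
  obtain ⟨c1, hc1, hLL⟩ := MP_3bc45c_nt.LocalAlmostLipschitz.result θ h0 h1 (1 / 2) (by norm_num)
    (by norm_num) (ε / 4) (by positivity)
  refine ⟨c2, hc2, ?_⟩
  intro δ hδ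
  obtain ⟨δ0, hδ0⟩ : ∃ δ0 : ℝ, δ0 = δ / 4 := ⟨_, rfl⟩
  have hδ00 : 0 < δ0 := by rw [hδ0]; positivity
  -- the mesh
  obtain ⟨n, hn1, hnμ⟩ : ∃ n : ℕ, 1 ≤ n ∧ (1 / (n : ℝ)) ^ (1 / 2 : ℝ) ≤ c1 * c2 * δ0 := by
    obtain ⟨n, hn⟩ := exists_nat_ge (1 / (c1 * c2 * δ0) ^ 2)
    refine ⟨n + 1, by omega, ?_⟩
    have hn0 : (0 : ℝ) < ((n + 1 : ℕ) : ℝ) := by exact_mod_cast (by omega : 0 < n + 1)
    have h2 : 1 / ((n + 1 : ℕ) : ℝ) ≤ (c1 * c2 * δ0) ^ 2 := by
      rw [div_le_iff₀ (by positivity)] at hn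
      rw [div_le_iff₀ hn0]
      push_cast
      have : 0 < (c1 * c2 * δ0) ^ 2 := by positivity
      linarith
    calc (1 / ((n + 1 : ℕ) : ℝ)) ^ (1 / 2 : ℝ) ≤ ((c1 * c2 * δ0) ^ 2) ^ (1 / 2 : ℝ) :=
          Real.rpow_le_rpow (by positivity) h2 (by norm_num)
      _ = c1 * c2 * δ0 := by
          rw [← Real.sqrt_eq_rpow, Real.sqrt_sq (by positivity)]
  have hnr : (0 : ℝ) < n := by exact_mod_cast hn1
  obtain ⟨N, hN⟩ : ∃ N : ℕ, 16 / δ0 + 1 ≤ (N : ℝ) / n := by
    obtain ⟨N, hN⟩ := exists_nat_ge (n * (16 / δ0 + 1))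
    refine ⟨N, ?_⟩
    rw [le_div_iff₀ hnr]
    linarith
  obtain ⟨Λ, hΛ⟩ : ∃ Λ : ℝ, Λ = (N : ℝ) / n := ⟨_, rfl⟩
  have hΛ1 : 1 ≤ Λ := by
    rw [hΛ]; have : 0 < 16 / δ0 := by positivity
    linarith
  have hΛδ : 16 ≤ δ0 * Λ := by
    have h2 : 16 / δ0 ≤ Λ := by rw [hΛ]; linarith
    rw [div_le_iff₀ hδ00] at h2
    linarith
  obtain ⟨ε', hε'⟩ : ∃ ε' : ℝ, ε' = ε / (4 * (N + 1)) := ⟨_, rfl⟩
  have hε'0 : 0 < ε' := by rw [hε']; positivity
  obtain ⟨c3, hc3, hEW3⟩ := MP_f9960f_nt.EveryWeight.result θ h0 h1 ε' hε'0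
  obtain ⟨K3, hEW3⟩ := hEW3 δ0 hδ00
  obtain ⟨ν, hν⟩ : ∃ ν : ℝ, ν = (1 / (n : ℝ)) ^ (1 / 2 : ℝ) := ⟨_, rfl⟩
  have hν0 : 0 < ν := by rw [hν]; exact Real.rpow_pos_of_pos (by positivity) _
  obtain ⟨s0, hs0⟩ := pow_unbounded_of_one_lt (4 / δ0 + 1 / (c1 * ν)) (by norm_num : (1 : ℝ) < 2)
  have hs0a : 4 / δ0 ≤ (2 : ℝ) ^ s0 := by
    have : 0 < 1 / (c1 * ν) := by positivity
    linarith
  have hs0b : 1 / (c1 * ν) ≤ (2 : ℝ) ^ s0 := by
    have : 0 < 4 / δ0 := by positivity
    linarith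
  refine ⟨(N + 1) * K3 + s0, ?_⟩
  have hXr : Tendsto (fun X : ℕ => (X : ℝ)) atTop atTop := tendsto_natCast_atTop_atTop
  have hlogX : Tendsto (fun X : ℕ => Real.log (X : ℝ)) atTop atTop :=
    Real.tendsto_log_atTop.comp hXr
  filter_upwards [hEW1, hLL, hEW3, hlogX.eventually_ge_atTop 2,
    hlogX.eventually_ge_atTop (n : ℝ), eventually_ge_atTop 3] with X hX1 hX2 hX3 hL2 hLn hX03
  intro Y hY hYX
  obtain ⟨L, hLdef⟩ : ∃ L : ℝ, L = Real.log X := ⟨_, rfl⟩
  have hL0 : 0 < L := by rw [hLdef]; linarith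
  have hXpos : (0 : ℝ) < X := by exact_mod_cast (by omega : 0 < X)
  have hY0 : 0 < Y := by
    have : (0 : ℝ) < Y := lt_of_lt_of_le (Real.rpow_pos_of_pos hXpos θ) hY
    exact_mod_cast this
  obtain ⟨f, hf⟩ : ∃ f : ℕ → ℕ → ℝ, f = fun (i q : ℕ) =>
      if (NoCon.gp q : ℝ) ≤ (i : ℝ) / n * L then (1 : ℝ) else 0 :=
    ⟨_, rfl⟩
  have hf1 : ∀ i q, |f i q| ≤ 1 := by
    intro i q
    rw [hf]
    simp only
    split_ifs <;> simp
  obtain ⟨B1, hB1⟩ : ∃ B1 : Finset ℕ, B1 = (Finset.Ioc X (X + Y)).filter (fun p => p.Prime ∧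
    ¬ ((p ∈ (Set.univ : Set ℕ) → MP_f9960f_nt.EveryWeight.LowerWindows c2 Set.univ X Y p) ∧
      MP_f9960f_nt.EveryWeight.UpperWindows c2 X Y p ∧
      MP_f9960f_nt.EveryWeight.badScales 1 (f 0) X Y p ≤ K2)) := ⟨_, rfl⟩
  obtain ⟨B2, hB2⟩ : ∃ B2 : Finset ℕ, B2 = (Finset.Ioc X (X + Y)).filter (fun p => p.Prime ∧
    ¬ MP_3bc45c_nt.LocalAlmostLipschitz.Spread (1 / 2) c1 X Y p) := ⟨_, rfl⟩
  obtain ⟨B3, hB3⟩ : ∃ B3 : ℕ → Finset ℕ, B3 = fun i => (Finset.Ioc X (X + Y)).filter (fun p => p.Prime ∧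
    ¬ ((p ∈ (Set.univ : Set ℕ) → MP_f9960f_nt.EveryWeight.LowerWindows c3 Set.univ X Y p) ∧
      MP_f9960f_nt.EveryWeight.UpperWindows c3 X Y p ∧
      MP_f9960f_nt.EveryWeight.badScales δ0 (f i) X Y p ≤ K3)) := ⟨_, rfl⟩
  have hb1 : (B1.card : ℝ) ≤ ε / 4 * Y / L := by
    rw [hB1, hLdef]
    refine le_trans (le_of_eq ?_) (hX1 Y hY hYX Set.univ (f 0) (hf1 0))
    congr!
  have hb2 : (B2.card : ℝ) ≤ ε / 4 * Y / L := by
    rw [hB2, hLdef]
    refine le_trans (le_of_eq ?_) (hX2 Y hY hYX)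
    congr!
  have hb3 : ∀ i ∈ range (N + 1), ((B3 i).card : ℝ) ≤ ε' * Y / L := by
    intro i _
    rw [hB3, hLdef]
    refine le_trans (le_of_eq ?_) (hX3 Y hY hYX Set.univ (f i) (hf1 i))
    simp only
    congr!
  have hsub : (Finset.Ioc X (X + Y)).filter (fun p => p.Prime ∧
        ¬ (ManyPrimes c2 X Y p ∧ badScales δ X Y p ≤ (N + 1) * K3 + s0)) ⊆
      B1 ∪ (B2 ∪ (range (N + 1)).biUnion B3) := by
    intro p hp
    rw [mem_filter] at hp
    obtain ⟨hpI, hpp, hbad⟩ := hp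
    by_contra hcon
    rw [mem_union, mem_union, mem_biUnion] at hcon
    push Not at hcon
    obtain ⟨n1, n2, n3⟩ := hcon
    apply hbad
    rw [hB1, mem_filter, not_and, not_and, not_not] at n1
    obtain ⟨g1, g2, -⟩ := n1 hpI hpp
    rw [hB2, mem_filter, not_and, not_and, not_not] at n2
    have g3 := n2 hpI hpp
    have g4 : ∀ i ∈ range (N + 1), MP_f9960f_nt.EveryWeight.badScales δ0 (f i) X Y p ≤ K3 := by
      intro i hi
      have h2 := n3 i hi
      rw [hB3] at h2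
      simp only at h2
      rw [mem_filter, not_and, not_and, not_not] at h2
      exact (h2 hpI hpp).2.2
    rw [mem_Ioc] at hpI
    refine ⟨?_, ?_⟩
    · intro j hj1 hj2
      have h2 := (g1 (Set.mem_univ _) (2 ^ j) (Nat.one_le_two_pow) hj2).1
      push_cast at h2
      refine h2.trans ?_
      refine Nat.cast_le.2 (cf _ _ _ _ _ _ ?_)
      intro q hq1 hq2
      have h6 := Finset.mem_Ico.1 hq1
      have : 0 < 2 ^ j := by positivity
      exact ⟨Finset.mem_Ioc.2 ⟨by omega, by omega⟩, hq2.1⟩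
    · -- the bad scales
      unfold badScales
      rw [← hLdef]
      have hsub2 : (Finset.range (Nat.log 2 Y + 1)).filter (fun j => L ≤ (2 : ℝ) ^ j ∧
          ¬ Equidistributed δ X p j) ⊆
          ((range (N + 1)).biUnion (fun i => (Finset.range (Nat.log 2 Y + 1)).filter (fun j =>
            Real.log X ≤ (2 : ℝ) ^ j ∧
            ¬ MP_f9960f_nt.EveryWeight.ConstantDensity δ0 (f i) X p j))) ∪
          ((Finset.range (Nat.log 2 Y + 1)).filter (fun j => L ≤ (2 : ℝ) ^ j ∧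
            (2 : ℝ) ^ j < 2 ^ s0 * L)) := by
        intro j hj
        rw [mem_filter] at hj
        obtain ⟨hj1, hj2, hj3⟩ := hj
        by_contra hcon
        rw [mem_union, mem_biUnion] at hcon
        push Not at hcon
        obtain ⟨m1, m2⟩ := hcon
        have hjY : 2 ^ j ≤ Y := by
          rw [mem_range] at hj1
          have h4 : 2 ^ j ≤ 2 ^ (Nat.log 2 Y) := Nat.pow_le_pow_right (by norm_num) (by omega)
          exact h4.trans (Nat.pow_log_le_self 2 (by omega))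
        have hjp : 2 ^ j ≤ p := by omega
        have hbig : 2 ^ s0 * L ≤ (2 : ℝ) ^ j := by
          by_contra h
          exact m2 (mem_filter.2 ⟨hj1, hj2, not_le.1 h⟩)
        apply hj3
        have hPj : (0 : ℝ) < 2 ^ j := by positivity
        -- the thresholds of the grid
        have hG : ∀ i ≤ N, ∃ κ : ℝ, ∀ u v : ℕ, p ≤ u + 2 ^ j → u ≤ v → v ≤ p + 2 ^ j →
            |((Law.Sm u v (i / n * L)).card : ℝ) - κ * ((v : ℝ) - u) / L| ≤ δ0 * 2 ^ j / L := by
          intro i hi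
          have h2 : MP_f9960f_nt.EveryWeight.ConstantDensity δ0 (f i) X p j := by
            by_contra h
            exact m1 i (mem_range.2 (by omega)) (mem_filter.2 ⟨hj1, by rw [← hLdef]; exact hj2, h⟩)
          obtain ⟨κ, hκ⟩ := h2
          refine ⟨κ, fun u v hu huv hv => ?_⟩
          have h3 := hκ u v hu huv hv
          have h4 : ∑ q ∈ (Finset.Ioc u v).filter Nat.Prime, f i q =
              ((Law.Sm u v (i / n * L)).card : ℝ) := by
            rw [hf]
            simp only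
            rw [Finset.sum_boole, Finset.filter_filter]
            unfold Law.Sm
            congr!
          rw [h4, ← hLdef] at h3
          exact h3
        have hup := g2 (2 ^ j) (by push_cast; rw [← hLdef]; exact hj2) hjY
        rw [← hLdef] at hup
        push_cast at hup
        -- no concentration
        have hNC : ∀ lam : ℝ, ((NoCon.Con (p - 2 ^ j) (p + 2 ^ j) (lam * L)
            ((lam + 1 / n) * L)).card : ℝ) ≤ δ0 * 2 ^ j / L := by
          intro lam
          have hnL : 1 / L ≤ 1 / n := by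
            apply one_div_le_one_div_of_le hnr
            rw [hLdef]; exact hLn
          have h2 := (g3 (1 / n) (by rw [← hLdef]; exact hnL) (by
            rw [div_le_one hnr]; exact_mod_cast hn1) (2 ^ j) (2 ^ j) hjY hjY (by
              rw [← hLdef, ← hν]
              push_cast
              have h3 : L ≤ c1 * ν * 2 ^ j := by
                calc L = c1 * ν * (1 / (c1 * ν)) * L := by field_simp
                  _ ≤ c1 * ν * 2 ^ s0 * L := by gcongr
                  _ = c1 * ν * (2 ^ s0 * L) := by ring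
                  _ ≤ c1 * ν * 2 ^ j := by gcongr
              have h4 : 0 ≤ c1 * ν * 2 ^ j := by positivity
              have h5 : c1 * ν * (2 ^ j + 2 ^ j) = c1 * ν * 2 ^ j + c1 * ν * 2 ^ j := by ring
              linarith)).2 lam
          rw [← hLdef, ← hν] at h2
          have h6 : ((NoCon.Con (p - 2 ^ j) (p + 2 ^ j) (lam * L) ((lam + 1 / n) * L)).card : ℝ) ≤
              ν / c1 * (((Finset.Ioc (p - 2 ^ j) (p + 2 ^ j)).filter Nat.Prime).card : ℝ) := by
            refine le_trans (le_of_eq ?_) h2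
            unfold NoCon.Con
            congr!
          refine h6.trans ?_
          calc ν / c1 * (((Finset.Ioc (p - 2 ^ j) (p + 2 ^ j)).filter Nat.Prime).card : ℝ)
              ≤ (c1 * c2 * δ0) / c1 * (2 ^ j / (c2 * L)) := by
                gcongr
                rw [hν]; exact hnμ
            _ = δ0 * 2 ^ j / L := by field_simp
        -- large gaps
        have hBG : ((Law.Bg (p - 2 ^ j) (p + 2 ^ j) (N / n * L)).card : ℝ) ≤ δ0 * 2 ^ j / L := by
          rw [← hΛ]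
          obtain ⟨m, hm⟩ : ∃ m : ℕ, m = ⌊Λ * L⌋₊ := ⟨_, rfl⟩
          have hL2' : 2 ≤ L := by rw [hLdef]; exact hL2
          have hxL : 2 ≤ Λ * L := by nlinarith
          have k1 : (m : ℝ) ≤ Λ * L := by rw [hm]; exact Nat.floor_le (by linarith)
          have k2 : Λ * L < m + 1 := by rw [hm]; exact Nat.lt_floor_add_one _
          have k3 : Λ * L / 2 ≤ m := by linarith
          have k4 : (1 : ℝ) < (m : ℝ) + 1 := by linarith
          have k5 : (0 : ℝ) < m := by linarith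
          have k6 : 1 ≤ m := by exact_mod_cast k5
          have h2 := Law.card_Bg (p - 2 ^ j) (p + 2 ^ j) m (Λ * L) k6 k1
          have h3 : ((Law.Bg (p - 2 ^ j) (p + 2 ^ j) (Λ * L)).card : ℝ) ≤
              (((p + 2 ^ j - (p - 2 ^ j)) / m : ℕ) : ℝ) + 2 := by exact_mod_cast h2
          have e1 : p + 2 ^ j - (p - 2 ^ j) = 2 * 2 ^ j := by omega
          rw [e1] at h3
          have h4 : (((2 * 2 ^ j) / m : ℕ) : ℝ) ≤ 4 * (2 ^ j / (Λ * L)) := by
            calc (((2 * 2 ^ j) / m : ℕ) : ℝ) ≤ ((2 * 2 ^ j : ℕ) : ℝ) / m := Nat.cast_div_le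
              _ ≤ ((2 * 2 ^ j : ℕ) : ℝ) / (Λ * L / 2) := by gcongr
              _ = 4 * (2 ^ j / (Λ * L)) := by push_cast; field_simp; norm_num
          have h5 : 4 * (2 ^ j / (Λ * L)) ≤ δ0 / 4 * (2 ^ j / L) := by
            have : 4 * ((2 : ℝ) ^ j / (Λ * L)) = 4 / Λ * (2 ^ j / L) := by field_simp
            rw [this]
            refine mul_le_mul_of_nonneg_right ?_ (by positivity)
            rw [div_le_iff₀ (by linarith)]
            linarith
          have h6 : 2 ≤ δ0 / 2 * (2 ^ j / L) := by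
            have h7 : 4 / δ0 * L ≤ 2 ^ j := le_trans (by gcongr) hbig
            have h8 : 4 / δ0 ≤ 2 ^ j / L := by rw [le_div_iff₀ hL0]; exact h7
            calc (2 : ℝ) = δ0 / 2 * (4 / δ0) := by field_simp; norm_num
              _ ≤ δ0 / 2 * (2 ^ j / L) := by gcongr
          have h7 : δ0 * 2 ^ j / L = δ0 / 4 * (2 ^ j / L) + δ0 / 2 * (2 ^ j / L) +
            δ0 / 4 * (2 ^ j / L) := by ring
          have h8 : 0 ≤ δ0 / 4 * (2 ^ j / L) := by positivity
          rw [h7]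
          linarith
        intro lam u v hu huv hv
        obtain ⟨κ, hκ⟩ := Law.all_thresholds L δ0 hL0 hδ00 p j n N hn1 hG hNC hBG lam
        have h9 := Law.equi L (2 * (δ0 * 2 ^ j / L)) hL0 p j hjp (lam * L) κ hκ u v hu huv hv
        rw [← hLdef]
        have e2 : 2 * (2 * (δ0 * 2 ^ j / L)) = δ * 2 ^ j / L := by rw [hδ0]; ring
        rw [e2] at h9
        have e3 : ∀ a b : ℕ, (count X a b lam : ℝ) = ((Law.Sm a b (lam * L)).card : ℝ) := by
          intro a b
          unfold count Law.Sm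
          rw [← hLdef]
          congr!
        rw [e3, e3]
        exact h9
      refine (card_le_card hsub2).trans ((card_union_le _ _).trans ?_)
      have h3 := (Finset.card_biUnion_le (s := range (N + 1)) (t := fun i =>
        (Finset.range (Nat.log 2 Y + 1)).filter (fun j => Real.log X ≤ (2 : ℝ) ^ j ∧
            ¬ MP_f9960f_nt.EveryWeight.ConstantDensity δ0 (f i) X p j))).trans
        (Finset.sum_le_card_nsmul _ _ K3 (fun i hi => g4 i hi))
      rw [card_range, smul_eq_mul] at h3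
      have h4 := few_scales ((Finset.range (Nat.log 2 Y + 1)).filter (fun j => L ≤ (2 : ℝ) ^ j ∧
            (2 : ℝ) ^ j < 2 ^ s0 * L)) L s0 (fun j hj => (mem_filter.1 hj).2)
      exact Nat.add_le_add h3 h4
  have hcardN := (card_le_card hsub).trans ((card_union_le _ _).trans
    (Nat.add_le_add_left (card_union_le _ _) _))
  have hs1 : (((range (N + 1)).biUnion B3).card : ℝ) ≤ (N + 1) * (ε' * Y / L) := by
    have h3 : (((range (N + 1)).biUnion B3).card : ℝ) ≤ ∑ i ∈ range (N + 1), ((B3 i).card : ℝ) := by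
      exact_mod_cast Finset.card_biUnion_le
    refine h3.trans ((Finset.sum_le_sum hb3).trans ?_)
    rw [Finset.sum_const, nsmul_eq_mul, card_range]
    push_cast
    exact le_rfl
  have hcardR : (((Finset.Ioc X (X + Y)).filter (fun p => p.Prime ∧
        ¬ (ManyPrimes c2 X Y p ∧ badScales δ X Y p ≤ (N + 1) * K3 + s0))).card : ℝ) ≤
      (B1.card : ℝ) + ((B2.card : ℝ) + (((range (N + 1)).biUnion B3).card : ℝ)) := by
    exact_mod_cast hcardN
  rw [← hLdef]
  have hN1 : (0 : ℝ) < 4 * (N + 1) := by positivity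
  have htot : ((N : ℝ) + 1) * (ε' * Y / L) = ε / 4 * Y / L := by
    rw [hε']; field_simp
  have htot2 : ε * Y / L = ε / 4 * Y / L + ε / 4 * Y / L + ε / 4 * Y / L + ε / 4 * Y / L := by ring
  have hnn : 0 ≤ ε / 4 * Y / L := by positivity
  rw [htot2]
  linarith

end Pool.Agent.Results.MP_028722_nt.LocalGapLaw
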