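import Pool.Agent.W147.PS.Main

set_option autoImplicit false

/-! # Prime gaps of record length around the numbers `α n ^ c`, `1 < c < 2`

For `α > 0`, `1 < c < 2` and `ε > 0` there is `κ > 0` such that for all large `M` some `n` in the
short interval `(M, M + M ^ (2 - c + ε)]` has no prime within
`κ log M (log₂ M)² log₄ M / (log₃ M)²` of `α n ^ c`.

Proof: near a point where the derivative of `α t ^ c` is close to an integer `d` with few small
prime factors, the numbers `α n ^ c` follow an arithmetic progression of difference `d`, and the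
localised covering sieve of `MP_3bc45c_nt.RecordGapsAtPrescribedPlaces` applies. -/

namespace Pool.Agent.Results.MP_028722_nt.PowersInRecordGaps

theorem result (α c ε : ℝ) (hα : 0 < α) (hc1 : 1 < c) (hc2 : c < 2) (hε : 0 < ε) :
    ∃ κ : ℝ, 0 < κ ∧ ∃ M₀ : ℝ, ∀ M : ℝ, M₀ ≤ M →
      ∃ n : ℕ, M < n ∧ (n : ℝ) ≤ M + M ^ (2 - c + ε) ∧ ∀ q : ℕ, q.Prime →
        κ * (Real.log M * (Real.log (Real.log M)) ^ 2 *
          Real.log (Real.log (Real.log (Real.log M))) /
            (Real.log (Real.log (Real.log M))) ^ 2) < |(q : ℝ) - α * (n : ℝ) ^ c| :=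
  Pool.Agent.W147.PS.main α c ε hα hc1 hc2 hε

end Pool.Agent.Results.MP_028722_nt.PowersInRecordGaps
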