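import Pool.Agent.W126.RecMain

set_option autoImplicit false

/-!
# Sum systems of record gaps between consecutive primes

Let `f(x) = log x (log₂ x)² log₄ x / (log₃ x)²`, the size of the largest gaps between consecutive primes
that are known to occur up to `x`, and let `d_0, d_1, …` be ANY sequence of positive reals tending to `0`.
There are nonempty finite sets `W_0 < W_1 < …` of indices such that, with `x_F` the sum of the `d_a` over
the `a` in the union of the `W_i`, `i ∈ F`, every vector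

`ρ (x_{F_0}, x_{F_1}, …, x_{F_{m-1}})`, and the reversed vector, with `F_0 < F_1 < …` far enough out,

is a limit point of the vectors of `m` consecutive prime gaps divided by `f`; here the dilation factor `ρ` is
an arbitrary positive function of `k` further blocks that precede `F_0`. For instance (theorem `single`) all finite
sums `x_F`, all products `x_F x_G` and all quotients `x_G / x_F` with `F < G` are limit points of
`(p_{n+1} - p_n) / f(p_n)`.

The theorem does this for countably many sequences, dilation functions, residue classes and SCALES at once, with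
the same sets `W_i`: the record function can be replaced by any slowly varying `H` with `log x ≤ H(x) = O(f(x))`, and
if `H(x) = o(f(x))` the sequence need not tend to `0`.

Method: the Maynard-Tao theorem inside the record windows (Team RG and helper362, in the form
`Pool.Agent.H672R3.SimRec.window` of the starting files) says that among any `K` positions there are `m + 1`
which are realised by consecutive primes at the scale `H`; the sets of vectors of limit points are closed, and
the infinite dimensional version of Hindman's theorem (Milliken) of `Pool.Agent.W68.Mil2` (helper68) applies.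
-/

open Filter Topology

namespace Pool.Agent.Results.MP_028722_nt.RecordSumSystem

/-- The record scale `f(x) = log x (log₂ x)² log₄ x / (log₃ x)²` (iterated natural logarithms). -/
noncomputable def f (x : ℝ) : ℝ :=
  Real.log x * (Real.log (Real.log x)) ^ 2 * Real.log (Real.log (Real.log (Real.log x))) /
    (Real.log (Real.log (Real.log x))) ^ 2

/-- The set of the vectors `v ∈ ℝ^m` such that for every `ε > 0` there are infinitely many `n` with
`p_(n+i) ≡ r (mod q)` for `0 ≤ i ≤ m` and `|(p_(n+i+1) - p_(n+i)) / H(p_n) - v i| < ε` for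
`0 ≤ i < m` (`p_n` is the prime with index `n`): the limit points of the vectors of `m` consecutive
gaps divided by `H`, along blocks of `m + 1` consecutive primes in the class `r` modulo `q`. -/
def LimitPoints (H : ℝ → ℝ) (m q r : ℕ) : Set (Fin m → ℝ) :=
  {v | ∀ ε : ℝ, 0 < ε → ∃ᶠ n : ℕ in atTop,
    (∀ i ≤ m, Nat.nth Nat.Prime (n + i) ≡ r [MOD q]) ∧
    ∀ i : Fin m, |((Nat.nth Nat.Prime (n + i + 1) : ℝ) - Nat.nth Nat.Prime (n + i)) /
      H (Nat.nth Nat.Prime n) - v i| < ε}

/-- For every index `s` let `H s` be a slowly varying function with `log x ≤ H s x`, let `d s` be a sequence of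
positive reals, `q s` a squarefree modulus, `r s` a residue prime to it, and for every `k` let `ρ s k` be a
positive function of `k` finite sets. Suppose that `H s = o(f)`, or that `H s = O(f)` and `d s` tends to `0`.
There are nonempty finite sets `W_0 < W_1 < …` such that for all `s, k, m` there is `N` with: for all nonempty
finite sets `N ≤ F_0 < F_1 < … < F_(k+m-1)` the vector of the sums of `d s` over the unions of the `W_i`,
`i ∈ F_(k+l)`, `0 ≤ l < m`, multiplied by `ρ s k` of the first `k` unions, and the reversed vector, are limit points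
of the vectors of `m` consecutive prime gaps divided by `H s`, along the primes `≡ r s (mod q s)`. -/
theorem result (H : ℕ → ℝ → ℝ) (hlow : ∀ s, ∀ᶠ x : ℝ in atTop, Real.log x ≤ H s x)
    (hslow : ∀ s, ∀ ε : ℝ, 0 < ε → ∀ᶠ x : ℝ in atTop, ∀ t : ℝ, x ≤ t → t ≤ 4 * x →
      |H s x / H s t - 1| < ε)
    (d : ℕ → ℕ → ℝ) (hd : ∀ s a, 0 < d s a)
    (hc : ∀ s, (∀ c : ℝ, 0 < c → ∀ᶠ x : ℝ in atTop, H s x ≤ c * f x) ∨
      ((∃ C : ℝ, ∀ᶠ x : ℝ in atTop, H s x ≤ C * f x) ∧ Tendsto (d s) atTop (𝓝 0)))
    (q r : ℕ → ℕ) (hq : ∀ s, Squarefree (q s)) (hr : ∀ s, (r s).Coprime (q s))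
    (ρ : ℕ → ∀ k, (Fin k → Finset ℕ) → ℝ) (hρ : ∀ s k P, 0 < ρ s k P) :
    ∃ W : ℕ → Finset ℕ, (∀ i, (W i).Nonempty) ∧ (∀ i, ∀ a ∈ W i, ∀ b ∈ W (i + 1), a < b) ∧
      ∀ s k m : ℕ, ∃ N : ℕ, ∀ F : ℕ → Finset ℕ, (∀ l < k + m, (F l).Nonempty) →
        (∀ l < k + m, ∀ i ∈ F l, N ≤ i) →
        (∀ l, l + 1 < k + m → ∀ i ∈ F l, ∀ i' ∈ F (l + 1), i < i') →
        (fun i : Fin m => ρ s k (fun l => (F l).biUnion W) *
          ∑ a ∈ (F (k + i)).biUnion W, d s a) ∈ LimitPoints (H s) m (q s) (r s) ∧
        (fun i : Fin m => ρ s k (fun l => (F l).biUnion W) *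
          ∑ a ∈ (F (k + (Fin.rev i : Fin m))).biUnion W, d s a) ∈
            LimitPoints (H s) m (q s) (r s) :=
  Pool.Agent.W126.RecSum.main H (fun s => ⟨hlow s, hslow s⟩) d hd hc q r hq hr ρ hρ

/-- Special case: every sequence `d` of positive reals tending to `0` has a sum system whose finite sums
`x_F`, products `x_F x_G` and quotients `x_G / x_F` (`F < G`) are all limit points of
`(p_(n+1) - p_n) / f(p_n)`. -/
theorem single (d : ℕ → ℝ) (hd : ∀ a, 0 < d a) (h0 : Tendsto d atTop (𝓝 0)) :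
    ∃ (W : ℕ → Finset ℕ) (N : ℕ), (∀ i, (W i).Nonempty) ∧
      (∀ i, ∀ a ∈ W i, ∀ b ∈ W (i + 1), a < b) ∧
      ∀ F G : Finset ℕ, F.Nonempty → G.Nonempty → (∀ i ∈ F, N ≤ i) → (∀ i ∈ F, ∀ j ∈ G, i < j) →
        (fun _ => ∑ a ∈ F.biUnion W, d a) ∈ LimitPoints f 1 1 0 ∧
        (fun _ => (∑ a ∈ F.biUnion W, d a) * ∑ a ∈ G.biUnion W, d a) ∈ LimitPoints f 1 1 0 ∧
        (fun _ => (∑ a ∈ G.biUnion W, d a) / ∑ a ∈ F.biUnion W, d a) ∈ LimitPoints f 1 1 0 := by
  classical
  have hff : f = Pool.Agent.H256R2.SC.ff := rfl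
  set ρ : ℕ → ∀ k, (Fin k → Finset ℕ) → ℝ := fun s k P =>
    if 0 < ∑ l : Fin k, ∑ a ∈ P l, d a then
      (if s = 0 then ∑ l : Fin k, ∑ a ∈ P l, d a else (∑ l : Fin k, ∑ a ∈ P l, d a)⁻¹) else 1 with hρ
  have hρ0 : ∀ s k P, 0 < ρ s k P := by
    intro s k P
    simp only [hρ]
    split_ifs with h1 h2
    · exact h1
    · exact inv_pos.2 h1
    · exact one_pos
  obtain ⟨W, hW1, hW2, hW⟩ := result (fun _ => f) (fun _ => by
      filter_upwards [Pool.Agent.H672R3.InfRec.scale_ev 1 one_pos] with x hx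
      rw [one_mul] at hx
      exact hx) (fun _ ε hε => Pool.Agent.H312R2.RG.C3.ff_slow ε hε) (fun _ => d) (fun _ => hd)
    (fun _ => Or.inr ⟨⟨1, Eventually.of_forall fun x => by rw [one_mul]⟩, h0⟩) (fun _ => 1) (fun _ => 0)
    (fun _ => squarefree_one) (fun _ => Nat.coprime_one_right 0) ρ hρ0
  obtain ⟨N1, hN1⟩ := hW 0 0 1
  obtain ⟨N2, hN2⟩ := hW 0 1 1
  obtain ⟨N3, hN3⟩ := hW 1 1 1
  refine ⟨W, max N1 (max N2 N3), hW1, hW2, ?_⟩
  intro F G hF hG hFN hFG
  obtain ⟨i0, hi0⟩ := hF
  have hGN : ∀ j ∈ G, max N1 (max N2 N3) ≤ j := fun j hj => (hFN i0 hi0).trans (hFG i0 hi0 j hj).le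
  have hpos : ∀ A : Finset ℕ, A.Nonempty → 0 < ∑ a ∈ A.biUnion W, d a := by
    intro A hA
    obtain ⟨i, hi⟩ := hA
    obtain ⟨a, ha⟩ := hW1 i
    exact Finset.sum_pos (fun a _ => hd a) ⟨a, Finset.mem_biUnion.2 ⟨i, hi, ha⟩⟩
  have hFp := hpos F ⟨i0, hi0⟩
  have hGp := hpos G hG
  have hl2 : ∀ l < 1 + 1, ((fun l => if l = 0 then F else G) l : Finset ℕ).Nonempty := by
    intro l hl
    simp only
    split_ifs
    · exact ⟨i0, hi0⟩
    · exact hG
  have hlN : ∀ l < 1 + 1, ∀ i ∈ ((fun l => if l = 0 then F else G) l : Finset ℕ),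
      max N1 (max N2 N3) ≤ i := by
    intro l hl i hi
    simp only at hi
    split_ifs at hi
    · exact hFN i hi
    · exact hGN i hi
  have hlF : ∀ l, l + 1 < 1 + 1 → ∀ i ∈ ((fun l => if l = 0 then F else G) l : Finset ℕ),
      ∀ i' ∈ ((fun l => if l = 0 then F else G) (l + 1) : Finset ℕ), i < i' := by
    intro l hl i hi i' hi'
    obtain rfl : l = 0 := by omega
    exact hFG i hi i' hi'
  refine ⟨?_, ?_, ?_⟩
  · have h := (hN1 (fun _ => F) (fun _ _ => ⟨i0, hi0⟩) (fun _ _ i hi => (le_max_left _ _).trans (hFN i hi))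
      (fun l hl => by omega)).1
    simpa [hρ] using h
  · have h := (hN2 (fun l => if l = 0 then F else G) hl2
      (fun l hl i hi => ((le_max_left _ _).trans (le_max_right _ _)).trans (hlN l hl i hi)) hlF).1
    simpa [hρ, hFp] using h
  · have h := (hN3 (fun l => if l = 0 then F else G) hl2
      (fun l hl i hi => ((le_max_right _ _).trans (le_max_right _ _)).trans (hlN l hl i hi)) hlF).1
    have e : (∑ a ∈ G.biUnion W, d a) / (∑ a ∈ F.biUnion W, d a) =
        (∑ a ∈ F.biUnion W, d a)⁻¹ * ∑ a ∈ G.biUnion W, d a := by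
      rw [div_eq_mul_inv, mul_comm]
    rw [e]
    simpa [hρ, hFp] using h

end Pool.Agent.Results.MP_028722_nt.RecordSumSystem
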